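import Mathlib
import Pool.Agent.H.MP_5d01ce_co.C

set_option autoImplicit false

namespace Pool.Agent.Results.MP_5d01ce_co.No

open Set Matroid

/-- `N` is isomorphic to `M`. -/
def Iso (N M : Matroid ℕ) : Prop :=
  ∃ f : ℕ → ℕ, BijOn f N.E M.E ∧ ∀ I ⊆ N.E, (N.Indep I ↔ M.Indep (f '' I))

/-- `N` is isomorphic to a matroid obtained from `M` by contractions and deletions. -/
def MinorOf (N M : Matroid ℕ) : Prop := ∃ M' : Matroid ℕ, M' ≤m M ∧ Iso N M'

/-- `(X, Y)` is a `j`-separation: a partition of the ground set with `|X|, |Y| ≥ j` and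
`r X + r Y - r M ≤ j - 1`. -/
def IsSep (M : Matroid ℕ) (j : ℕ) (X Y : Set ℕ) : Prop :=
  Disjoint X Y ∧ X ∪ Y = M.E ∧ (j : ℕ∞) ≤ X.encard ∧ (j : ℕ∞) ≤ Y.encard ∧
    M.eRk X + M.eRk Y + 1 ≤ M.eRank + j

/-- The Tutte connectivity of `M` is the finite value `k`. -/
def TutteConn (M : Matroid ℕ) (k : ℕ) : Prop :=
  IsLeast {j : ℕ | 1 ≤ j ∧ ∃ X Y, IsSep M j X Y} k

/-- `U` is the uniform matroid `U_{r,n}`: `n` elements, bases the `r`-element subsets. -/
def IsUnif (U : Matroid ℕ) (r n : ℕ) : Prop :=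
  U.E.encard = n ∧ ∀ B, U.IsBase B ↔ B ⊆ U.E ∧ B.encard = r

open Pool.Agent.H.MP_5d01ce_co Submodule Module in
theorem result : ∃ N : ℕ → Matroid ℕ, (∀ i, (N i).E.Finite) ∧
    (∀ i j, i ≠ j → ¬ MinorOf (N i) (N j)) ∧ (∀ i, TutteConn (N i) (i + 1)) ∧
    ∀ i, ∀ M' : Matroid ℕ, M' ≤m N i → ¬ IsUnif M' 7 1177 := by
  classical
  let p : ℕ → ℕ := Nat.nth Nat.Prime
  have hp : ∀ i, (p i).Prime := Nat.prime_nth_prime
  have hF : ∀ i, Fact (p (i + 1)).Prime := fun i => ⟨hp _⟩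
  have hc := fun i => core (ZMod (p (i + 1))) (i + 1) (by omega) (by
    rw [ZMod.card]
    have h1 : i + 1 + 2 ≤ p (i + 1) := Nat.add_two_le_nth_prime _
    have h2 := Nat.pow_le_pow_left h1 3
    nlinarith [sq_nonneg i])
  choose V i1 i2 D T C u z h1 h2 h3 h4 h5 h6 using hc
  choose N hE hN using fun i => vm (ZMod (p (i + 1))) (u i) (D i).finite_toSet
  have hfin : ∀ i, (N i).E.Finite := fun i => hE i ▸ (D i).finite_toSet
  have hrk : ∀ i, ∀ X ⊆ D i, (N i).eRk X = rk (ZMod (p (i + 1))) (u i) X := fun i X hX =>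
    (hN i).rk (hfin i) (hE i ▸ Finset.coe_subset.2 hX)
  have hrank : ∀ i, (N i).eRank = rk (ZMod (p (i + 1))) (u i) (D i) := fun i => by
    rw [← hrk i _ subset_rfl, ← hE, eRk_ground]
  refine ⟨N, hfin, ?_, fun i => ⟨⟨by omega, T i, ↑(D i \ T i), ?_⟩, ?_⟩, ?_⟩
  · rintro i j hij ⟨M', hM, f, hf, hI⟩
    obtain ⟨C', D', hC', -, -, rfl⟩ := hM.exists_eq_contract_delete_disjoint
    have r1 := (hN j).minor hC' D' _ (ker_mkQ _)
    set w := (span (ZMod (p (j + 1))) (u j '' C')).mkQ ∘ u j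
    have r2 : Rp (ZMod (p (j + 1))) (N i) (w ∘ f) := fun I hIE => by
      rw [hI I hIE, r1 _ (image_subset_iff.2 fun x hx => hf.mapsTo (hIE hx))]
      exact ⟨fun h => h.comp_of_image (hf.injOn.mono hIE), LinearIndepOn.image_of_comp _ _⟩
    have := reid (K := ZMod (p (j + 1)))
      (fun a => (span (ZMod (p (j + 1))) ((w ∘ f) '' C i)).mkQ ((w ∘ f) (z i a))) fun a X => by
        have s1 : (↑(C i) ∪ z i '' X : Set ℕ) ⊆ (N i).E := by
          rw [hE]
          exact union_subset (Finset.coe_subset.2 (h4 i)) (image_subset_iff.2 fun x _ => h5 i x)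
        have s2 : z i a ∈ (N i).E := by rw [hE]; exact h5 i a
        rw [h6 i a X, ← (hN i).cl s1 s2, r2.cl s1 s2, image_union, span_union, ← comap_map_mkQ,
          mem_comap, map_span, image_image, image_image]
    rw [ZMod.natCast_eq_zero_iff, Nat.prime_dvd_prime_iff_eq (hp _) (hp _)] at this
    have := Nat.nth_injective Nat.infinite_setOf_prime this
    omega
  · obtain ⟨a, b, c, d⟩ := h3 i
    refine ⟨Finset.disjoint_coe.2 Finset.disjoint_sdiff, ?_, ?_, ?_, ?_⟩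
    · rw [hE, ← Finset.coe_union, Finset.union_sdiff_of_subset a]
    · rw [encard_coe_eq_coe_finsetCard, b]
    · rw [encard_coe_eq_coe_finsetCard]; exact_mod_cast c
    · rw [hrk i _ a, hrk i _ Finset.sdiff_subset, hrank]
      have := rk_le (F := ZMod (p (i + 1))) (u i) (T i)
      norm_cast
      omega
  · rintro j ⟨hj, X, Y, hd, hu, hX, hY, hr⟩
    by_contra hlt
    lift X to Finset ℕ using (hfin i).subset (hu ▸ subset_union_left)
    lift Y to Finset ℕ using (hfin i).subset (hu ▸ subset_union_right)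
    rw [hE, ← Finset.coe_union, Finset.coe_inj] at hu
    rw [encard_coe_eq_coe_finsetCard] at hX hY
    rw [hrk i _ (hu ▸ Finset.subset_union_left), hrk i _ (hu ▸ Finset.subset_union_right),
      hrank] at hr
    have := h2 i X Y (Finset.disjoint_coe.1 hd) hu j hj (by omega) (by exact_mod_cast hX)
      (by exact_mod_cast hY)
    norm_cast at hr
    omega
  · rintro i M' hM ⟨hn, hB⟩
    obtain ⟨C', D', hC', -, -, rfl⟩ := hM.exists_eq_contract_delete_disjoint
    obtain ⟨π, q1, q2⟩ := pivot (u i) ((hfin i).subset hC') fun e _ => h1 i e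
    have := i2 i
    exact no_unif (by simp) ((hN i).minor hC' D' π q1) (fun e _ => q2 _ (h1 i e)) hn hB

end Pool.Agent.Results.MP_5d01ce_co.No
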